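import Pool.Agent.N554.HKS.Def

/-!
# From squares in `u` to squares in `w`
-/

set_option autoImplicit false

namespace Pool.Agent.N371.HKS

open Pool.Agent.N554.HKS

/-- the content of a block -/
def con (z : Fin 6) : List (Fin 7) := if z = 0 then [0, 0] else [z.castSucc]

/-- the content of a block without one letter -/
def con' (z : Fin 6) : List (Fin 7) := if z = 0 then [0] else []

lemma sig1 : ∀ z, sigma z = 6 :: con z := by decide

lemma con1 : ∀ z, con z = z.castSucc :: con' z := by decide

lemma con2 : ∀ z, con z = con' z ++ [z.castSucc] := by decide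

lemma con3 : ∀ z, (6 : Fin 7) ∉ con z := by decide

lemma con_two : ∀ (z : Fin 6) (t : Fin 7), con z = [t, t] → t = 0 := by decide

lemma con_len : ∀ z : Fin 6, (con z).length ≤ 2 := by decide

lemma ext_nil : ext sigma [] = [] := rfl

lemma ext_cons (z : Fin 6) (s : List (Fin 6)) :
    ext sigma (z :: s) = 6 :: (con z ++ ext sigma s) := by
  unfold ext
  rw [List.flatMap_cons, sig1]
  rfl

lemma ext_append (s t : List (Fin 6)) : ext sigma (s ++ t) = ext sigma s ++ ext sigma t := by
  unfold ext
  exact List.flatMap_append

lemma split6 (s : List (Fin 6)) : ∀ (A B : List (Fin 7)), ext sigma s = A ++ 6 :: B →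
    ∃ p q, s = p ++ q ∧ A = ext sigma p ∧ 6 :: B = ext sigma q := by
  induction s with
  | nil =>
    intro A B h
    rw [ext_nil] at h
    exact absurd h.symm (by simp)
  | cons z s ih =>
    intro A B h
    rcases A with _ | ⟨a, A⟩
    · exact ⟨[], z :: s, rfl, rfl, by rw [h]; rfl⟩
    · rw [ext_cons, List.cons_append, List.cons.injEq] at h
      obtain ⟨rfl, h⟩ := h
      rcases List.append_eq_append_iff.1 h with ⟨t, h1, h2⟩ | ⟨t, h1, h2⟩
      · obtain ⟨p, q, e1, e2, e3⟩ := ih t B h2
        exact ⟨z :: p, q, by rw [e1]; rfl, by rw [ext_cons, h1, e2], e3⟩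
      · rcases t with _ | ⟨b, t⟩
        · rw [List.append_nil] at h1
          rw [List.nil_append] at h2
          exact ⟨[z], s, rfl, by rw [ext_cons, h1, ext_nil, List.append_nil], h2⟩
        · rw [List.cons_append, List.cons.injEq] at h2
          exfalso
          apply con3 z
          rw [h1, h2.1]
          simp

lemma ext_inj (s : List (Fin 6)) : ∀ t, ext sigma s = ext sigma t → s = t := by
  induction s with
  | nil =>
    intro t h
    cases t with
    | nil => rfl
    | cons z t =>
      rw [ext_cons, ext_nil] at h
      exact absurd h (by simp)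
  | cons z s ih =>
    intro t h
    cases t with
    | nil =>
      rw [ext_cons, ext_nil] at h
      exact absurd h (by simp)
    | cons z' t =>
      rw [ext_cons, ext_cons, con1, con1 z'] at h
      simp only [List.cons_append, List.cons.injEq] at h
      obtain ⟨-, h1, h2⟩ := h
      have hz : z = z' := Fin.castSucc_injective _ h1
      subst hz
      rw [ih t (List.append_cancel_left h2)]

lemma last_block {p : List (Fin 6)} {x : List (Fin 7)} {z : Fin 6}
    (h : ext sigma p = x ++ con z) : ∃ p', p = p' ++ [z] := by
  rcases List.eq_nil_or_concat p with rfl | ⟨p', z1, rfl⟩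
  · rw [ext_nil, con2] at h
    exact absurd h.symm (by simp)
  · refine ⟨p', ?_⟩
    rw [List.concat_eq_append] at h ⊢
    rw [ext_append, ext_cons, ext_nil, List.append_nil, con2, con2 z] at h
    have h' : (ext sigma p' ++ 6 :: con' z1) ++ [z1.castSucc] = (x ++ con' z) ++ [z.castSucc] := by
      rw [List.append_assoc, List.append_assoc, ← h]
      rfl
    have h2 := (List.append_inj' h' rfl).2
    simp only [List.cons.injEq, and_true] at h2
    rw [Fin.castSucc_injective _ h2]

lemma no6 (s : List (Fin 6)) : ∀ (x v y : List (Fin 7)), ext sigma s = x ++ (v ++ y) →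
    (6 : Fin 7) ∉ v → v ≠ [] → ∃ z a b, con z = a ++ (v ++ b) := by
  induction s with
  | nil =>
    intro x v y h _ hv
    rw [ext_nil] at h
    exfalso
    have := congrArg List.length h
    simp only [List.length_nil, List.length_append] at this
    exact hv (List.length_eq_zero_iff.1 (by omega))
  | cons z s ih =>
    intro x v y h h6 hv
    rcases x with _ | ⟨a, x⟩
    · rcases v with _ | ⟨b, v⟩
      · exact absurd rfl hv
      · rw [ext_cons] at h
        simp only [List.nil_append, List.cons_append, List.cons.injEq] at h
        exact absurd (by rw [← h.1]; exact List.mem_cons_self) h6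
    · rw [ext_cons, List.cons_append, List.cons.injEq] at h
      obtain ⟨-, h⟩ := h
      rcases List.append_eq_append_iff.1 h with ⟨t, h1, h2⟩ | ⟨t, h1, h2⟩
      · exact ih t v y h2 h6 hv
      · -- `con z = x ++ t`, `v ++ y = t ++ ext s`
        rcases List.append_eq_append_iff.1 h2 with ⟨t', h3, h4⟩ | ⟨t', h3, h4⟩
        · exact ⟨z, x, t', by rw [h1, h3]⟩
        · -- `v = t ++ t'`, `ext s = t' ++ y`
          rcases t' with _ | ⟨c, t'⟩
          · rw [List.append_nil] at h3
            exact ⟨z, x, [], by rw [h1, h3, List.append_nil]⟩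
          · exfalso
            rcases s with _ | ⟨z', s⟩
            · rw [ext_nil] at h4
              exact absurd h4 (by simp)
            · rw [ext_cons, List.cons_append, List.cons.injEq] at h4
              apply h6
              rw [h3, ← h4.1]
              simp

lemma count_sigma : ∀ (y z : Fin 6), y ≠ 0 → (sigma z).count y.castSucc = [z].count y := by decide

lemma count_ext (s : List (Fin 6)) (y : Fin 6) (hy : y ≠ 0) :
    (ext sigma s).count y.castSucc = s.count y := by
  induction s with
  | nil => rfl
  | cons z s ih =>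
    have e : ext sigma (z :: s) = sigma z ++ ext sigma s := by
      unfold ext
      rw [List.flatMap_cons]
    rw [e, List.count_append, count_sigma y z hy, ih, ← List.count_append]
    rfl

theorem core (s : List (Fin 6)) (x r y : List (Fin 7)) (hr : r ≠ [])
    (h : ext sigma s = x ++ (r ++ r) ++ y) : r = [0] ∨
      ∃ s' : List (Fin 6), s' ≠ [] ∧ (∃ p q, s = p ++ (s' ++ s') ++ q) ∧
        ∀ y : Fin 6, y ≠ 0 → r.count y.castSucc = s'.count y := by
  by_cases h6 : (6 : Fin 7) ∈ r
  · right
    obtain ⟨r1, r2, hr12, hr1⟩ := List.eq_append_cons_of_mem h6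
    have e : ext sigma s = (x ++ r1) ++ 6 :: ((r2 ++ r1) ++ 6 :: (r2 ++ y)) := by
      rw [h, hr12]
      simp
    obtain ⟨p, q, hs, hp, hq⟩ := split6 s _ _ e
    have e2 : ext sigma q = (6 :: (r2 ++ r1)) ++ 6 :: (r2 ++ y) := by
      rw [← hq]
      simp
    obtain ⟨q1, q2, hq12, h1, h2⟩ := split6 q _ _ e2
    rcases List.eq_nil_or_concat q1 with rfl | ⟨q1', z, rfl⟩
    · rw [ext_nil] at h1
      exact absurd h1 (by simp)
    rw [List.concat_eq_append] at h1 hq12
    have h1' : ext sigma (q1' ++ [z]) = 6 :: (r2 ++ r1) := h1.symm
    rw [ext_append, ext_cons, ext_nil, List.append_nil] at h1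
    have e3 : (ext sigma q1' ++ [6]) ++ con z = (6 :: r2) ++ r1 := by
      rw [List.append_assoc]
      exact h1.symm
    obtain ⟨t, g1, g2⟩ : ∃ t, 6 :: r2 = (ext sigma q1' ++ [6]) ++ t ∧ con z = t ++ r1 := by
      rcases List.append_eq_append_iff.1 e3 with ⟨t, g1, g2⟩ | ⟨t, g1, g2⟩
      · exact ⟨t, g1, g2⟩
      · rcases List.eq_nil_or_concat t with rfl | ⟨t', c, rfl⟩
        · rw [List.append_nil] at g1
          exact ⟨[], by rw [List.append_nil, g1], g2.symm⟩
        · exfalso
          rw [List.concat_eq_append, ← List.append_assoc] at g1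
          have h3 := (List.append_inj' g1 rfl).2
          simp only [List.cons.injEq, and_true] at h3
          apply hr1
          rw [g2, h3]
          simp
    have e4 : ext sigma q2 = ext sigma q1' ++ 6 :: (t ++ y) := by
      rw [← h2, ← List.cons_append, g1]
      simp
    obtain ⟨a, b, k1, k2, k3⟩ := split6 q2 _ _ e4
    have ha : q1' = a := ext_inj _ _ k2
    subst ha
    have hcnt : ∀ y : Fin 6, y ≠ 0 → r.count y.castSucc = (q1' ++ [z]).count y := by
      intro y hy
      rw [← count_ext _ y hy, h1', hr12]
      simp only [List.count_append, List.count_cons]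
      omega
    rcases t with _ | ⟨t0, t⟩
    · rw [List.nil_append] at g2
      obtain ⟨p', hp'⟩ := last_block (p := p) (x := x) (z := z) (by rw [← hp, g2])
      refine ⟨z :: q1', by simp, ⟨p', b, ?_⟩, fun y hy => ?_⟩
      · rw [hs, hp', hq12, k1]
        simp
      · rw [hcnt y hy, List.count_append, List.count_cons (a := y) (b := z) (l := q1'),
          List.count_singleton]
    · refine ⟨q1' ++ [z], by simp, ?_, hcnt⟩
      rcases b with _ | ⟨z1, b⟩
      · rw [ext_nil] at k3
        exact absurd k3 (by simp)
      · rw [ext_cons, con1] at k3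
        simp only [List.cons_append, List.cons.injEq, true_and] at k3
        rw [con1, List.cons_append, List.cons.injEq] at g2
        have hz : z1 = z := Fin.castSucc_injective _ (by rw [← k3.1, ← g2.1])
        subst hz
        refine ⟨p, b, ?_⟩
        rw [hs, hq12, k1]
        simp
  · left
    obtain ⟨z, a, b, hz⟩ := no6 s x (r ++ r) y (by rw [h, List.append_assoc])
      (by
        rw [List.mem_append]
        rintro (h' | h') <;> exact h6 h') (by simp [hr])
    have hl := congrArg List.length hz
    simp only [List.length_append] at hl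
    have h2 := con_len z
    have hr0 : 0 < r.length := List.length_pos_iff.2 hr
    have hr1 : r.length = 1 := by omega
    obtain ⟨t, rfl⟩ := List.length_eq_one_iff.1 hr1
    have ha : a = [] := List.length_eq_zero_iff.1 (by omega)
    have hb : b = [] := List.length_eq_zero_iff.1 (by omega)
    subst ha hb
    rw [con_two z t (by rw [hz]; rfl)]

lemma seg_len {A : Type*} (u : ℕ → A) (i n : ℕ) : (seg u i n).length = n := by
  unfold seg
  simp

lemma seg_add {A : Type*} (u : ℕ → A) (i a b : ℕ) :
    seg u i (a + b) = seg u i a ++ seg u (i + a) b := by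
  unfold seg
  rw [List.range_add, List.map_append, List.map_map]
  congr 1
  refine List.map_congr_left fun j _ => ?_
  simp only [Function.comp_apply]
  rw [Nat.add_assoc]

lemma le_ext (s : List (Fin 6)) : s.length ≤ (ext sigma s).length := by
  induction s with
  | nil => simp
  | cons z s ih =>
    rw [ext_cons]
    simp only [List.length_cons, List.length_append]
    omega

theorem TR_of (hI : IMG) : TR := by
  intro r hr hrr
  obtain ⟨i, hi⟩ := hrr
  set n := (r ++ r).length with hn
  set E := ext sigma (seg w 0 (i + n)) with hE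
  have h1 : seg u 0 E.length = E := hI (Fin 6) (Fin 7) _ sigma (by decide) w (i + n)
  have h2 : i + n ≤ E.length := by
    have := le_ext (seg w 0 (i + n))
    rwa [seg_len] at this
  obtain ⟨m, hm⟩ := Nat.exists_eq_add_of_le h2
  have h3 : E = seg u 0 i ++ (r ++ r) ++ seg u (i + n) m := by
    rw [← h1, hm, seg_add, seg_add, Nat.zero_add, Nat.zero_add, ← hi]
  rcases core (seg w 0 (i + n)) _ r _ hr h3 with h4 | ⟨s, hs, ⟨p, q, hpq⟩, hc⟩
  · exact Or.inl h4
  · refine Or.inr ⟨s, hs, ⟨p.length, ?_⟩, hc⟩
    have hl := congrArg List.length hpq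
    rw [seg_len, List.length_append, List.length_append] at hl
    rw [hl, seg_add, seg_add, Nat.zero_add] at hpq
    have h5 := (List.append_inj hpq (by simp [seg_len])).1
    exact ((List.append_inj h5 (by rw [seg_len])).2).symm

end Pool.Agent.N371.HKS
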